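import Mathlib
import Pool.Agent.Lib.helper4.SL2N
import Pool.Agent.Lib.helper14.Deg3

namespace Pool.Agent.Results.MP_71c9ee_al.FailsGAC

open Matrix MatrixGroups H4SL2 Metric

/-- `N_k(G)`: the `k`-tuples whose normal closure is `G`. -/
def NK (G : Type) [Group G] (k : ℕ) : Set (Fin k → G) :=
  {U | Subgroup.normalClosure (Set.range U) = ⊤}

/-- `d_G(G)`: the least `k ≥ 1` with `N_k(G) ≠ ∅`. -/
noncomputable def dG (G : Type) [Group G] : ℕ := sInf {k | 1 ≤ k ∧ (NK G k).Nonempty}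

/-- One elementary Andrews-Curtis transformation. -/
def ACStep {G : Type} [Group G] {k : ℕ} (U V : Fin k → G) : Prop :=
  ∃ i j : Fin k, j ≠ i ∧
    (V = Function.update U i (U i * U j) ∨ V = Function.update U i (U i * (U j)⁻¹) ∨
      V = Function.update U i (U j * U i) ∨ V = Function.update U i ((U j)⁻¹ * U i) ∨
      V = Function.update U i (U i)⁻¹ ∨ ∃ w : G, V = Function.update U i (w⁻¹ * U i * w))

/-- `V` is obtained from `U` by a finite sequence of elementary AC transformations. -/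
def ACEquiv {G : Type} [Group G] {k : ℕ} (U V : Fin k → G) : Prop :=
  Relation.ReflTransGen ACStep U V

/-- `G` satisfies the generalised Andrews-Curtis conjecture. -/
def SatisfiesGAC (G : Type) [Group G] : Prop :=
  ∀ k : ℕ, max (dG G) 2 ≤ k → ∀ U ∈ NK G k, ∀ V ∈ NK G k,
    (ACEquiv U V ↔ ACEquiv (fun i => Abelianization.of (U i)) (fun i => Abelianization.of (V i)))

abbrev E : Type := EuclideanSpace ℝ (Fin 6)
abbrev D : Type := closedBall (0 : E) 1
abbrev X : Type := sphere (0 : E) 1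
abbrev A : Type := C(D, ℝ)
abbrev R : Type := X → ℝ

def inc (x : X) : D := ⟨x.1, sphere_subset_closedBall x.2⟩

def rho : A →+* R where
  toFun f := fun x => f (inc x)
  map_one' := rfl
  map_mul' _ _ := rfl
  map_zero' := rfl
  map_add' _ _ := rfl

def ev (y : D) : A →+* ℝ where
  toFun f := f y
  map_one' := rfl
  map_mul' _ _ := rfl
  map_zero' := rfl
  map_add' _ _ := rfl

noncomputable def co (i : Fin 6) : A := ⟨fun y => y.1 i, by fun_prop⟩

lemma co_bd (i : Fin 6) (y : D) : |y.1 i| ≤ 1 :=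
  (PiLp.norm_apply_le y.1 i).trans (mem_closedBall_zero_iff.1 y.2)

noncomputable def un (f : A) (h : ∀ y, f y ≠ 0) : Aˣ where
  val := f
  inv := ⟨fun y => (f y)⁻¹, f.continuous.inv₀ h⟩
  val_inv := by ext y; exact mul_inv_cancel₀ (h y)
  inv_val := by ext y; exact inv_mul_cancel₀ (h y)

noncomputable def a2 : Aˣ := un 2 fun _ => by change (2 : ℝ) ≠ 0; norm_num
noncomputable def a3 : Aˣ := un 3 fun _ => by change (3 : ℝ) ≠ 0; norm_num
noncomputable def a5 : Aˣ := un 5 fun _ => by change (5 : ℝ) ≠ 0; norm_num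
noncomputable def ap (i : Fin 6) : Aˣ := un (2 + co i) fun y => by
  change (2 : ℝ) + y.1 i ≠ 0
  linarith [(abs_le.1 (co_bd i y)).1]
noncomputable def aq (i : Fin 6) : Aˣ := un (2 - co i) fun y => by
  change (2 : ℝ) - y.1 i ≠ 0
  linarith [(abs_le.1 (co_bd i y)).2]

noncomputable def ru (v : Aˣ) : Rˣ := Units.map rho.toMonoidHom v

noncomputable def xx (i : Fin 6) : R := fun x => x.1 i

lemma dat : Dat (ru a2) (ru a3) (ru a5) (fun i => ru (ap i)) (fun i => ru (aq i)) xx :=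
  ⟨rfl, rfl, rfl, fun _ => rfl, fun _ => rfl⟩

lemma xx_sq : ∑ i, xx i ^ 2 = 1 := by
  funext x
  have h1 : ‖x.1‖ = 1 := mem_sphere_zero_iff_norm.1 x.2
  have h2 := EuclideanSpace.real_norm_sq_eq x.1
  rw [h1] at h2
  simpa [xx, Finset.sum_apply] using h2.symm

noncomputable def G0 : Subgroup SL(2, R) :=
  GG (ru a2) (ru a3) (ru a5) (fun i => ru (ap i)) (fun i => ru (aq i))

noncomputable def Phi : SL(2, A) →* SL(2, R) := SpecialLinearGroup.map rho

lemma Phi12 (r : A) : Phi (e12 r) = e12 (rho r) := by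
  ext i j; fin_cases i <;> fin_cases j <;> simp [Phi, e12]
lemma Phi21 (r : A) : Phi (e21 r) = e21 (rho r) := by
  ext i j; fin_cases i <;> fin_cases j <;> simp [Phi, e21]
lemma Phidg (v : Aˣ) : Phi (dg v) = dg (ru v) := by
  ext i j; fin_cases i <;> fin_cases j <;> simp [Phi, dg, ru]

lemma lifts : G0 ≤ Phi.range := by
  rw [G0, GG, Subgroup.closure_le]
  rintro g ((hg | ⟨i, rfl⟩) | ⟨i, rfl⟩)
  · simp only [Set.mem_insert_iff, Set.mem_singleton_iff] at hg
    rcases hg with rfl | rfl | rfl | rfl | rfl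
    · exact ⟨e12 1, by rw [Phi12, map_one]⟩
    · exact ⟨e21 1, by rw [Phi21, map_one]⟩
    · exact ⟨_, Phidg _⟩
    · exact ⟨_, Phidg _⟩
    · exact ⟨_, Phidg _⟩
  · exact ⟨_, Phidg _⟩
  · exact ⟨_, Phidg _⟩

noncomputable def Ev (y : D) : SL(2, A) →* SL(2, ℝ) := SpecialLinearGroup.map (ev y)

def P (U : Fin 2 → G0) : Prop :=
  ∃ W : Fin 2 → SL(2, A), (∀ i, Phi (W i) = U i) ∧
    ∀ y : D, ¬ ∀ i, Ev y (W i) ∈ Subgroup.center SL(2, ℝ)

lemma P_upd {U : Fin 2 → G0} (W : Fin 2 → SL(2, A)) (h1 : ∀ i, Phi (W i) = U i)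
    (h2 : ∀ y : D, ¬ ∀ i, Ev y (W i) ∈ Subgroup.center SL(2, ℝ)) (i j : Fin 2) (hij : j ≠ i)
    (g : G0) (g' : SL(2, A)) (hg : Phi g' = g)
    (hc : ∀ y : D, Ev y g' ∈ Subgroup.center SL(2, ℝ) → Ev y (W j) ∈ Subgroup.center SL(2, ℝ) →
      Ev y (W i) ∈ Subgroup.center SL(2, ℝ)) : P (Function.update U i g) := by
  refine ⟨Function.update W i g', fun l => ?_, fun y hy => h2 y fun l => ?_⟩
  · by_cases h : l = i
    · subst h; simp [hg]
    · simp [h, h1]
  · by_cases h : l = i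
    · subst h
      have b1 := hy l
      have b2 := hy j
      rw [Function.update_self] at b1
      rw [Function.update_of_ne hij] at b2
      exact hc y b1 b2
    · have := hy l
      rwa [Function.update_of_ne h] at this

lemma P_step {U V : Fin 2 → G0} (h : ACStep U V) (hU : P U) : P V := by
  obtain ⟨W, h1, h2⟩ := hU
  obtain ⟨i, j, hij, h | h | h | h | h | ⟨w, h⟩⟩ := h <;> subst h
  · refine P_upd W h1 h2 i j hij _ (W i * W j) (by simp [h1]) fun y a b => ?_
    rw [map_mul] at a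
    exact (Subgroup.mul_mem_cancel_right _ b).1 a
  · refine P_upd W h1 h2 i j hij _ (W i * (W j)⁻¹) (by simp [h1]) fun y a b => ?_
    rw [map_mul, map_inv] at a
    exact (Subgroup.mul_mem_cancel_right _ (Subgroup.inv_mem _ b)).1 a
  · refine P_upd W h1 h2 i j hij _ (W j * W i) (by simp [h1]) fun y a b => ?_
    rw [map_mul] at a
    exact (Subgroup.mul_mem_cancel_left _ b).1 a
  · refine P_upd W h1 h2 i j hij _ ((W j)⁻¹ * W i) (by simp [h1]) fun y a b => ?_
    rw [map_mul, map_inv] at a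
    exact (Subgroup.mul_mem_cancel_left _ (Subgroup.inv_mem _ b)).1 a
  · refine P_upd W h1 h2 i j hij _ (W i)⁻¹ (by simp [h1]) fun y a _ => ?_
    rw [map_inv] at a
    exact (Subgroup.inv_mem_iff _).1 a
  · obtain ⟨w', hw⟩ := lifts w.2
    refine P_upd W h1 h2 i j hij _ (w'⁻¹ * W i * w') (by simp [h1, hw]) fun y a _ => ?_
    rw [map_mul, map_mul, map_inv] at a
    have := (Subgroup.normal_of_characteristic (Subgroup.center SL(2, ℝ))).conj_mem _ a (Ev y w')
    convert this using 1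
    group

noncomputable def V0 : Fin 2 → G0 := ![⟨e12 1, m1⟩, 1]

noncomputable def U0 : Fin 2 → G0 :=
  ![⟨uu _ _ xx 0 1 2, uu_G dat 0 1 2⟩, ⟨uu _ _ xx 3 4 5, uu_G dat 3 4 5⟩]

lemma normal_top (N : Subgroup G0) [hN : N.Normal]
    (h : (∀ g ∈ G0, ∀ n ∈ N.map G0.subtype, g * n * g⁻¹ ∈ N.map G0.subtype) →
      G0 ≤ N.map G0.subtype) : N = ⊤ := by
  have h1 := h (by
    rintro g hg _ ⟨n, hn, rfl⟩
    exact ⟨_, hN.conj_mem n hn ⟨g, hg⟩, rfl⟩)
  rw [eq_top_iff]
  intro g _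
  obtain ⟨n, hn, e⟩ := h1 g.2
  have : n = g := Subtype.ext e
  exact this ▸ hn

lemma V0_mem : V0 ∈ NK G0 2 :=
  normal_top _ fun hN => all_of_one dat hN
    ⟨V0 0, Subgroup.subset_normalClosure ⟨0, rfl⟩, rfl⟩

lemma U0_mem : U0 ∈ NK G0 2 :=
  normal_top _ fun hN => all_of_uu dat hN xx_sq
    ⟨U0 0, Subgroup.subset_normalClosure ⟨0, rfl⟩, rfl⟩
    ⟨U0 1, Subgroup.subset_normalClosure ⟨1, rfl⟩, rfl⟩

lemma perfect : commutator G0 = ⊤ := by
  refine normal_top _ fun hN => all_of_one dat hN ?_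
  have t3 : (((ru a3)⁻¹ : Rˣ) : R) * 3 = 1 := by rw [← dat.h3]; exact (ru a3).inv_mul
  have h1 : e12 (((ru a3)⁻¹ : Rˣ) : R) ∈ G0 := e12_G (inv_M GG_norm m4 (c3_M dat))
  refine ⟨_, Subgroup.commutator_mem_commutator (Subgroup.mem_top (⟨dg (ru a2), m3⟩ : G0))
    (Subgroup.mem_top (⟨_, h1⟩ : G0)), ?_⟩
  change dg (ru a2) * e12 _ * (dg (ru a2))⁻¹ * (e12 _)⁻¹ = e12 1
  rw [conj12, e12_inv, e12_add, dat.h2]
  congr 1
  linear_combination t3

lemma P_V0 : P V0 := by
  refine ⟨![e12 1, 1], fun i => ?_, fun y hy => ?_⟩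
  · fin_cases i
    · change Phi (e12 1) = e12 1
      rw [Phi12, map_one]
    · exact map_one Phi
  · have h := Subgroup.mem_center_iff.1 (hy 0) (e21 1)
    have h2 := congrArg (fun g : SL(2, ℝ) => g.1 0 0) h
    simp [Ev, e12, e21, Matrix.mul_apply, Fin.sum_univ_two] at h2

lemma central_of (g : SL(2, ℝ)) (h1 : g 1 0 = 0) (h2 : g 0 1 = 0) (h3 : g 0 0 - g 1 1 = 0) :
    g ∈ Subgroup.center SL(2, ℝ) := by
  rw [Subgroup.mem_center_iff]
  intro h
  have h4 : g 1 1 = g 0 0 := by linarith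
  ext i j
  fin_cases i <;> fin_cases j <;>
    simp [Matrix.mul_apply, Fin.sum_univ_two, h1, h2, h4, mul_comm]

lemma entry (W : SL(2, A)) (i j k : Fin 6) (x : X)
    (h : Phi W = uu (fun i => ru (ap i)) (fun i => ru (aq i)) xx i j k) (t : ℝ) (ht : 0 < t)
    (h1 : W 1 0 (inc x) = -(t * x.1 i)) (h2 : W 0 1 (inc x) = -(t * x.1 j))
    (h3 : W 0 0 (inc x) - W 1 1 (inc x) = -(t * x.1 k)) : x.1 i = 0 ∧ x.1 j = 0 ∧ x.1 k = 0 := by
  have hb := abs_le.1 (co_bd k (inc x))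
  have hb1 : 0 < 2 + x.1 k := by have : (inc x).1 k = x.1 k := rfl; linarith [hb.1]
  have hb2 : 0 < 2 - x.1 k := by have : (inc x).1 k = x.1 k := rfl; linarith [hb.2]
  have e : ∀ a b, W a b (inc x)
      = (uu (fun i => ru (ap i)) (fun i => ru (aq i)) xx i j k) a b x := by
    intro a b
    rw [← h]; rfl
  set α : ℝ := (2 + x.1 k) * (2 - x.1 k)⁻¹ with hα
  set β : ℝ := (2 - x.1 k) * (2 + x.1 k)⁻¹ with hβ
  have v1 : ((ru (ap k) * (ru (aq k))⁻¹ : Rˣ) : R) x = α := rfl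
  have v2 : (((ru (ap k) * (ru (aq k))⁻¹)⁻¹ : Rˣ) : R) x = β := rfl
  have α0 : 0 < α := by positivity
  have e10 : W 1 0 (inc x) = x.1 i * α := by
    rw [e, ← v1]; simp [uu, e12, e21, dg, Matrix.mul_apply, Fin.sum_univ_two, xx]
  have e01 : W 0 1 (inc x) = α * x.1 j := by
    rw [e, ← v1]; simp [uu, e12, e21, dg, Matrix.mul_apply, Fin.sum_univ_two, xx]
  have e00 : W 0 0 (inc x) = α := by
    rw [e, ← v1]; simp [uu, e12, e21, dg, Matrix.mul_apply, Fin.sum_univ_two]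
  have e11 : W 1 1 (inc x) = x.1 i * α * x.1 j + β := by
    rw [e, ← v1, ← v2]; simp [uu, e12, e21, dg, Matrix.mul_apply, Fin.sum_univ_two, xx]
  have z1 : x.1 i = 0 := by
    have : x.1 i * (α + t) = 0 := by linarith
    exact (mul_eq_zero.1 this).resolve_right (by positivity)
  have z2 : x.1 j = 0 := by
    have : x.1 j * (α + t) = 0 := by linarith
    exact (mul_eq_zero.1 this).resolve_right (by positivity)
  refine ⟨z1, z2, ?_⟩
  have z3 : α - β = x.1 k * (8 * (2 - x.1 k)⁻¹ * (2 + x.1 k)⁻¹) := by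
    rw [hα, hβ]; field_simp; ring
  rw [e00, e11, z1] at h3
  have : x.1 k * (8 * (2 - x.1 k)⁻¹ * (2 + x.1 k)⁻¹ + t) = 0 := by linarith
  exact (mul_eq_zero.1 this).resolve_right (by positivity)

lemma not_P_U0 : ¬ P U0 := by
  classical
  rintro ⟨W, h1, h2⟩
  let F : D → E := fun y => WithLp.toLp 2
    ![W 0 1 0 y, W 0 0 1 y, W 0 0 0 y - W 0 1 1 y, W 1 1 0 y, W 1 0 1 y, W 1 0 0 y - W 1 1 1 y]
  have hF : Continuous F := by
    refine (PiLp.continuous_toLp 2 _).comp (continuous_pi fun i => ?_)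
    fin_cases i <;> simp <;> fun_prop
  have hF0 : ∀ y, F y ≠ 0 := by
    intro y hy
    refine h2 y fun i => ?_
    have c : ∀ k, F y k = 0 := fun k => by rw [hy]; rfl
    fin_cases i
    · exact central_of _ (c 0) (c 1) (c 2)
    · exact central_of _ (c 3) (c 4) (c 5)
  let f : E → E := fun y => if h : y ∈ closedBall (0 : E) 1 then -(‖F ⟨y, h⟩‖⁻¹ • F ⟨y, h⟩) else 0
  have hn : ∀ y : D, ‖f y.1‖ = 1 := by
    intro y
    simp only [f, dif_pos y.2, norm_neg, norm_smul, norm_inv, norm_norm]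
    exact inv_mul_cancel₀ (norm_ne_zero_iff.2 (hF0 y))
  obtain ⟨y, hy, hfy⟩ := Pool.Agent.H14Deg.brouwer (f := f) (by
    rw [continuousOn_iff_continuous_domRestrict]
    have : (closedBall (0 : E) 1).domRestrict f = fun y : D => -(‖F y‖⁻¹ • F y) := by
      funext y
      simp only [Set.domRestrict_apply, f, dif_pos y.2]
    rw [this]
    exact ((hF.norm.inv₀ fun y => norm_ne_zero_iff.2 (hF0 y)).smul hF).neg)
    (fun y hy => mem_closedBall_zero_iff.2 (hn ⟨y, hy⟩).le)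
  have hy1 : ‖y‖ = 1 := by rw [← hfy]; exact hn ⟨y, hy⟩
  let x : X := ⟨y, mem_sphere_zero_iff_norm.2 hy1⟩
  have ht : 0 < ‖F (inc x)‖ := norm_pos_iff.2 (hF0 _)
  have hF1 : F (inc x) = -(‖F (inc x)‖ • y) := by
    have : y = -(‖F (inc x)‖⁻¹ • F (inc x)) := by
      conv_lhs => rw [← hfy]
      simp only [f, dif_pos hy]
      rfl
    conv_rhs => rw [this]
    rw [smul_neg, neg_neg, smul_smul, mul_inv_cancel₀ ht.ne', one_smul]
  have c : ∀ k, F (inc x) k = -(‖F (inc x)‖ * x.1 k) := fun k => by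
    conv_lhs => rw [hF1]
    rfl
  obtain ⟨z0, z1, z2⟩ := entry (W 0) 0 1 2 x (h1 0) _ ht (c 0) (c 1) (c 2)
  obtain ⟨z3, z4, z5⟩ := entry (W 1) 3 4 5 x (h1 1) _ ht (c 3) (c 4) (c 5)
  have : y = 0 := by
    ext k
    fin_cases k
    exacts [z0, z1, z2, z3, z4, z5]
  rw [this, norm_zero] at hy1
  exact zero_ne_one hy1

/-- There is a (finitely generated) group that does not satisfy the generalised Andrews-Curtis
conjecture. -/
theorem result : ∃ (G : Type) (_ : Group G), Group.FG G ∧ ¬ SatisfiesGAC G := by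
  refine ⟨G0, inferInstance, ?_, fun h => ?_⟩
  · rw [Group.fg_iff_subgroup_fg, Subgroup.fg_iff]
    exact ⟨_, rfl, gens_finite _ _ _ _ _⟩
  · have hd : dG G0 ≤ 2 := Nat.sInf_le ⟨by norm_num, V0, V0_mem⟩
    have h1 := (h 2 (max_le hd le_rfl) V0 V0_mem U0 U0_mem).2 (by
      have : (fun i => Abelianization.of (V0 i)) = fun i => Abelianization.of (U0 i) := by
        funext i
        have k : ∀ g : G0, Abelianization.of g = 1 := fun g => by
          rw [← MonoidHom.mem_ker, Abelianization.ker_of, perfect]; trivial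
        rw [k, k]
      rw [this]
      exact Relation.ReflTransGen.refl)
    have key : ∀ V, ACEquiv V0 V → P V := by
      intro V hV
      induction hV with
      | refl => exact P_V0
      | tail _ hs ih => exact P_step hs ih
    exact not_P_U0 (key _ h1)

end Pool.Agent.Results.MP_71c9ee_al.FailsGAC
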